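import Pool.Agent.N110.PA.Defs

/-!
Definitions: the Néron-Severi group of a projective variety.
-/

set_option autoImplicit false

open FF Pool.Agent.W602.GT Pool.Agent.Y172 Pool.Agent.R887

namespace Pool.Agent.N110

section

variable {K : Type} [Field K] [Algebra ℂ K] {N : ℕ}

/-- The vectors `c P` in `ℤ ^ ρ` describe the numerical classes of the prime divisors `P` of `X`: the
principal divisors have the class `0`, a `ℚ`-divisor `D` with class `0` is pseudo-effective (for all
`q ≥ 1` some multiple of `q D + H`, `H` being a hyperplane section `y i = 0`, is linearly equivalent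
to an effective divisor; the same holds for `- D`, so `D` is numerically trivial), and the
pseudo-effective cone in `ℝ ^ ρ` contains no line. -/
structure NumClasses (y : Fin (N + 1) → K) {ρ : ℕ} (c : Place ℂ K → Fin ρ → ℤ) : Prop where
  principal : ∀ f : K, f ≠ 0 → cls y (fun P i => (c P i : ℚ)) (fun P => P.ord f) = 0
  trivial : ∀ D : Place ℂ K → ℚ, {P | IsPrimeDivisor y P ∧ D P ≠ 0}.Finite →
    cls y (fun P i => (c P i : ℚ)) D = 0 → ∀ i, y i ≠ 0 → ∀ q : ℕ, 1 ≤ q → ∃ m : ℕ, 1 ≤ m ∧
      ∃ f : K, f ≠ 0 ∧ ∀ P l, IsPrimeDivisor y P → Centred y l P →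
        0 ≤ (P.ord f : ℚ) + m * (q * D P + P.ord (y i / y l))
  salient : ∀ x : Fin ρ → ℝ,
    x ∈ closure {z : Fin ρ → ℝ | ∃ D, Effective y D ∧
      ∀ j, z j = cls y (fun P i => (c P i : ℚ)) D j} →
    -x ∈ closure {z : Fin ρ → ℝ | ∃ D, Effective y D ∧
      ∀ j, z j = cls y (fun P i => (c P i : ℚ)) D j} → x = 0

/-- The group `N¹(X)` of the divisors on `X` modulo numerical equivalence is finitely generated, and
the pseudo-effective cone in `N¹(X) ⊗ ℝ` contains no line. This holds for every normal projective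
variety, by the theorem of Néron and Severi. -/
def NeronSeveri (y : Fin (N + 1) → K) : Prop :=
  ∃ (ρ : ℕ) (c : Place ℂ K → Fin ρ → ℤ), NumClasses y c

end

end Pool.Agent.N110
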