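import Pool.Agent.N492.PA.Mat
import Pool.Agent.N110.PA.NDefs

/-!
Degrees of isomorphisms in codimension one are comparable to integral matrices: the version for the
Néron-Severi group (after helper492).
-/

set_option autoImplicit false
set_option linter.unusedSectionVars false
set_option linter.unusedVariables false

open FF Pool.Agent.W602.GT Pool.Agent.Y172 Pool.Agent.R887

namespace Pool.Agent.N110.PA

open Pool.Agent.N110 Pool.Agent.N110.NV Pool.Agent.N492.PA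

/-- the degrees of the elements of an abelian group of isomorphisms in codimension one are
comparable to the entries of integral matrices -/
def S_MatN : Prop :=
  ∀ (K : Type) [Field K] [Algebra ℂ K] (N n : ℕ) (y : Fin (N + 1) → K), NormalModel y →
    Algebra.trdeg ℂ K = n → 0 < n → NeronSeveri y → ∀ (r : ℕ) (φ : (Fin r → ℤ) → (K ≃ₐ[ℂ] K)),
    (∀ u v, φ (u + v) = φ u * φ v) → (∀ v, PseudoAut (φ v) y) →
    ∃ (ρ' : ℕ) (M : (Fin r → ℤ) → Matrix (Fin ρ') (Fin ρ') ℤ) (C : ℝ), 0 < C ∧ M 0 = 1 ∧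
      (∀ u v, M (u + v) = M u * M v) ∧
      (∀ v, mixedDegree (φ v) y n 1 ≤ ENNReal.ofReal (C * (∑ i, ∑ j, |(M v i j : ℝ)| + 1))) ∧
      ∀ v (D : ℕ), mixedDegree (φ v) y n 1 ≤ D → ∑ i, ∑ j, |(M v i j : ℝ)| ≤ C * D

noncomputable section

section

variable {K : Type} [Field K] [Algebra ℂ K] {N n : ℕ} {y : Fin (N + 1) → K} {ρ : ℕ}
  {c : Place ℂ K → Fin ρ → ℤ} {r : ℕ} {φ : (Fin r → ℤ) → (K ≃ₐ[ℂ] K)}

lemma princ (hc : NumClasses y c) {f : K} (hf : f ≠ 0) :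
    cls y (cQ c) (fun P => ((P.ord f : ℤ) : ℚ)) = 0 := hc.principal f hf

/-- the pull back of a divisor with class zero is pseudo-effective -/
lemma psef_pull (hy : NormalModel y) (h : ∀ u v, φ (u + v) = φ u * φ v)
    (hps : ∀ v, PseudoAut (φ v) y) (hc : NumClasses y c) (v : Fin r → ℤ) (D : QQ y →₀ ℤ)
    (h0 : cls y (cQ c) (dv D) = 0) :
    toR (cls y (cQ c) (dv (D.mapDomain (pim h hps v)))) ∈ closure (effSet y (cQ c)) := by
  classical
  obtain ⟨i, hi⟩ := hy.ne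
  obtain ⟨Hy, hHe, hH⟩ := exists_hyp hy hi
  obtain ⟨HF, hHF⟩ := hyfin hy hHe hH
  obtain ⟨x, hx⟩ : ∃ x, x = cls y (cQ c) (dv (D.mapDomain (pim h hps v))) := ⟨_, rfl⟩
  obtain ⟨w, hw⟩ : ∃ w, w = cls y (cQ c) (dv (HF.mapDomain (pim h hps v))) := ⟨_, rfl⟩
  rw [← hx]
  -- the approximations
  have key : ∀ q : ℕ, 1 ≤ q → toR x + (1 / (q : ℝ)) • toR w ∈ closure (effSet y (cQ c)) := by
    intro q hq
    obtain ⟨m, hm, f, hf, hfo⟩ := hc.trivial _ (dv_fin D) h0 i hi q hq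
    have hq0 : (0 : ℚ) < q := by exact_mod_cast hq
    have hm0 : (0 : ℚ) < m := by exact_mod_cast hm
    have hφf : φ v f ≠ 0 := by rwa [Ne, map_eq_zero]
    have hfin1 : Fin0 y (fun P => ((P.ord (φ v f) : ℤ) : ℚ)) := by
      refine (finite_ord hy hφf).subset ?_
      rintro P ⟨hP, h1⟩
      refine ⟨hP, fun h2 => h1 ?_⟩
      show ((P.ord (φ v f) : ℤ) : ℚ) = 0
      rw [h2, Int.cast_zero]
    have hfin2 : Fin0 y (fun P => (m * q : ℚ) * dv (D.mapDomain (pim h hps v)) P) :=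
      Fin0.smul (dv_fin _) _
    have hfin3 : Fin0 y (fun P => (m : ℚ) * dv (HF.mapDomain (pim h hps v)) P) :=
      Fin0.smul (dv_fin _) _
    obtain ⟨E, hE⟩ : ∃ E : Place ℂ K → ℚ, E = fun P => (((P.ord (φ v f) : ℤ) : ℚ) +
      (m * q : ℚ) * dv (D.mapDomain (pim h hps v)) P) +
      (m : ℚ) * dv (HF.mapDomain (pim h hps v)) P := ⟨_, rfl⟩
    have hEeff : Effective y E := by
      constructor
      · intro P hP
        have hP' := (hps v (comap (φ v) P) P fun _ => rfl).2 hP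
        obtain ⟨l, hl⟩ := exists_centred hy (comap (φ v) P)
        have e1 := hfo (comap (φ v) P) l hP' hl
        rw [← hH _ l hP' hl, comap_ord, hHF _ hP'] at e1
        rw [hE]
        simp only
        rw [dv_map h hps v D hP, dv_map h hps v HF hP]
        linarith
      · rw [hE]
        exact Fin0.add (Fin0.add hfin1 hfin2) hfin3
    have hcE : cls y (cQ c) E = (m * q : ℚ) • x + (m : ℚ) • w := by
      rw [hE, cls_add (Fin0.add hfin1 hfin2) hfin3, cls_add hfin1 hfin2,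
        show cls y (cQ c) (fun P => ((P.ord (φ v f) : ℤ) : ℚ)) = 0 from hc.principal _ hφf,
        cls_smul, cls_smul, zero_add, ← hx, ← hw]
    have h1 : toR (cls y (cQ c) E) ∈ effSet y (cQ c) := eff_mem hEeff
    have h2 := eff_smul h1 (r := 1 / (m * q : ℚ)) (by positivity)
    rw [hcE, toR_add, toR_smul, toR_smul, smul_add, smul_smul, smul_smul] at h2
    have e2 : (((1 / (m * q : ℚ) : ℚ)) : ℝ) * (((m * q : ℚ)) : ℝ) = 1 := by
      push_cast
      have : (m : ℝ) ≠ 0 := by exact_mod_cast hm0.ne'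
      have : (q : ℝ) ≠ 0 := by exact_mod_cast hq0.ne'
      field_simp
    have e3 : (((1 / (m * q : ℚ) : ℚ)) : ℝ) * (((m : ℚ)) : ℝ) = 1 / (q : ℝ) := by
      push_cast
      have : (m : ℝ) ≠ 0 := by exact_mod_cast hm0.ne'
      have : (q : ℝ) ≠ 0 := by exact_mod_cast hq0.ne'
      field_simp
    rw [e2, e3, one_smul] at h2
    exact subset_closure h2
  have hlim : Filter.Tendsto (fun q : ℕ => toR x + (1 / ((q : ℝ) + 1)) • toR w) Filter.atTop
      (nhds (toR x + (0 : ℝ) • toR w)) :=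
    tendsto_const_nhds.add (tendsto_one_div_add_atTop_nhds_zero_nat.smul_const _)
  rw [zero_smul, add_zero] at hlim
  refine isClosed_closure.mem_of_tendsto hlim (Filter.Eventually.of_forall fun q => ?_)
  have := key (q + 1) (by omega)
  push_cast at this
  exact this

lemma kernN (hy : NormalModel y) (h : ∀ u v, φ (u + v) = φ u * φ v)
    (hps : ∀ v, PseudoAut (φ v) y) (hc : NumClasses y c) (v : Fin r → ℤ) (D : QQ y →₀ ℤ)
    (h0 : (D.sum fun P a => a • c P) = 0) : (D.sum fun P a => a • c (pim h hps v P)) = 0 := by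
  rw [← ic_map h hps c]
  have h1 : cls y (cQ c) (dv D) = 0 := by
    funext i
    rw [cls_dv, ic, h0]
    simp
  have hneg : ∀ D : QQ y →₀ ℤ, cls y (cQ c) (dv (-D)) = - cls y (cQ c) (dv D) := by
    intro D
    have h2 : cls y (cQ c) (dv (-D)) = cls y (cQ c) (fun P => (-1) * dv D P) := by
      refine cls_congr fun P hP => ?_
      rw [dv_apply _ hP, dv_apply _ hP]
      push_cast
      simp
    rw [h2, cls_smul, neg_one_smul]
  have h2 := psef_pull hy h hps hc v D h1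
  have h3 := psef_pull hy h hps hc v (-D) (by rw [hneg, h1, neg_zero])
  have e1 : (-D).mapDomain (pim h hps v) = -(D.mapDomain (pim h hps v)) := by
    have := map_neg (Finsupp.mapDomain.addMonoidHom (M := ℤ) (pim h hps v)) D
    exact this
  rw [e1, hneg] at h3
  have e2 : ∀ x : Fin ρ → ℚ, toR (-x) = - toR x := by
    intro x
    funext i
    simp [toR]
  rw [e2] at h3
  have h4 := hc.salient _ h2 h3
  funext i
  have h5 := congrFun h4 i
  unfold toR at h5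
  rw [cls_dv] at h5
  have h6 : (((ic c (Finsupp.mapDomain (pim h hps v) D) i : ℤ) : ℚ) : ℝ) = 0 := h5
  show ic c (Finsupp.mapDomain (pim h hps v) D) i = 0
  exact_mod_cast h6

lemma lowerN (hLow : S_Low) (hy : NormalModel y) (hn : Algebra.trdeg ℂ K = n) (h0 : 0 < n)
    {i : Fin (N + 1)} (hi : y i ≠ 0) {Hy : Place ℂ K → ℚ} (hHe : Effective y Hy)
    (hH : ∀ P l, IsPrimeDivisor y P → Centred y l P → Hy P = P.ord (y i / y l))
    (hc : NumClasses y c) (h : ∀ u v, φ (u + v) = φ u * φ v)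
    (hps : ∀ v, PseudoAut (φ v) y) (P0 : QQ y) :
    ∃ C : ℝ, 0 ≤ C ∧ ∀ v (D : ℕ), mixedDegree (φ v) y n 1 ≤ D →
      ∑ j, |((c (pim h hps v P0).1 j : ℤ) : ℝ)| ≤ C * D := by
  classical
  obtain ⟨g, s, hg, hgs⟩ := dom hy hi hHe hH P0
  obtain ⟨c0, hc0, hcb⟩ := salient_bound (closure (effSet y (cQ c))) isClosed_closure
    (fun x hx r hr => clo_smul hx hr) (fun x hx hx' => hc.salient x hx hx')
  refine ⟨ρ * (s * ‖toR (cls y (cQ c) Hy)‖ / c0), by positivity, fun v D hD => ?_⟩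
  obtain ⟨f, hf0, hf⟩ := hLow K N n y hy hn h0 i hi Hy hH (φ v) (hps v) D hD
  obtain ⟨P1, hP1⟩ : ∃ P1 : QQ y, P1 = pim h hps v P0 := ⟨_, rfl⟩
  have hP1' : P1.1 = comap (φ (-v)) P0.1 := by rw [hP1]; rfl
  rw [← hP1]
  have hφg : φ v g ≠ 0 := by rwa [Ne, map_eq_zero]
  have hfs : f ^ s ≠ 0 := pow_ne_zero _ hf0
  obtain ⟨E, hE⟩ : ∃ E : Place ℂ K → ℚ, E = fun P => (((P.ord (φ v g * f ^ s) : ℤ) : ℚ) +
    (s * D : ℚ) * Hy P) - (if P = P1.1 then (1 : ℚ) else 0) := ⟨_, rfl⟩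
  have hfin1 : Fin0 y (fun P => ((P.ord (φ v g * f ^ s) : ℤ) : ℚ)) := by
    refine (finite_ord hy (mul_ne_zero hφg hfs)).subset ?_
    rintro P ⟨hP, h1⟩
    refine ⟨hP, fun h2 => h1 ?_⟩
    show ((P.ord (φ v g * f ^ s) : ℤ) : ℚ) = 0
    rw [h2, Int.cast_zero]
  have hfin2 : Fin0 y (fun P => (s * D : ℚ) * Hy P) := Fin0.smul (y := y) hHe.2 _
  have hEeff : Effective y E := by
    constructor
    · intro P hP
      have e1 := hgs (comap (φ v) P) ((hps v _ _ fun _ => rfl).2 hP)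
      have e2 := hf P hP
      have e3 : (comap (φ v) P = P0.1) ↔ (P = P1.1) := by
        rw [hP1']
        constructor
        · intro h1
          rw [← h1, comap_neg' h]
        · intro h1
          rw [h1, comap_neg h]
      have e4 : P.ord (φ v g * f ^ s) = P.ord (φ v g) + s * P.ord f := by
        rw [P.ord_mul hφg hfs, P.ord_pow]
      rw [comap_ord] at e1
      simp only [e3] at e1
      rw [hE]
      simp only
      rw [e4]
      push_cast
      have e5 : (s : ℚ) * Hy (comap (φ v) P) ≤ s * (P.ord f + D * Hy P) :=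
        mul_le_mul_of_nonneg_left e2 (Nat.cast_nonneg _)
      linarith
    · rw [hE]
      exact Fin0.sub (Fin0.add hfin1 hfin2) (fin_single _ _)
  have hclsE : cls y (cQ c) E = (s * D : ℚ) • cls y (cQ c) Hy - cQ c P1.1 := by
    rw [hE, cls_sub (Fin0.add hfin1 hfin2) (fin_single _ _), cls_add hfin1 hfin2,
      princ hc (mul_ne_zero hφg hfs), cls_smul, cls_single P1.2, zero_add, one_smul]
  have hx : toR (cQ c P1.1) ∈ closure (effSet y (cQ c)) := by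
    refine subset_closure ?_
    have h1 := eff_mem (c := cQ c) (single_eff P1)
    rwa [cls_single P1.2, one_smul] at h1
  have h3 := hcb _ hx _ (subset_closure (eff_mem (c := cQ c) hEeff))
  rw [← toR_add, hclsE, add_sub_cancel, toR_smul, norm_smul] at h3
  have h4 : ‖(((s * D : ℚ)) : ℝ)‖ = s * D := by
    rw [Real.norm_of_nonneg (by positivity)]
    push_cast
    rfl
  rw [h4] at h3
  have h5 : ∀ j, |((c P1.1 j : ℤ) : ℝ)| ≤ s * ‖toR (cls y (cQ c) Hy)‖ / c0 * D := by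
    intro j
    have h6 := norm_le_pi_norm (toR (cQ c P1.1)) j
    have h7 : ‖toR (cQ c P1.1) j‖ = |((c P1.1 j : ℤ) : ℝ)| := by
      rw [Real.norm_eq_abs]
      congr 1
    rw [h7] at h6
    refine h6.trans ?_
    rw [div_mul_eq_mul_div, le_div_iff₀ hc0]
    linarith
  refine (Finset.sum_le_sum fun j _ => h5 j).trans (le_of_eq ?_)
  rw [Finset.sum_const, Finset.card_univ, Fintype.card_fin, nsmul_eq_mul]
  ring

lemma upperN (hUp : S_Up) (hy : NormalModel y) (hn : Algebra.trdeg ℂ K = n) (h0 : 0 < n)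
    {i : Fin (N + 1)} (hi : y i ≠ 0) {Hy : Place ℂ K → ℚ} (hHe : Effective y Hy)
    (hH : ∀ P l, IsPrimeDivisor y P → Centred y l P → Hy P = P.ord (y i / y l))
    (hc : NumClasses y c) (h : ∀ u v, φ (u + v) = φ u * φ v)
    (hps : ∀ v, PseudoAut (φ v) y) {ρ' : ℕ} {M : (Fin r → ℤ) → Matrix (Fin ρ') (Fin ρ') ℤ}
    {F : Finset (QQ y)} {C0 : ℝ} (hC0 : 0 < C0)
    (h4 : ∀ P : QQ y, ∃ C' : ℝ, ∀ v j, |(c (pim h hps v P).1 j : ℝ)| ≤
      C' * ∑ i, ∑ j, |(M v i j : ℝ)|)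
    (h5 : ∀ D : QQ y →₀ ℤ, ∃ x : QQ y → ℤ, (D.sum fun P a => a • c P.1) = ∑ P ∈ F, x P • c P.1 ∧
      ∑ P ∈ F, |(x P : ℝ)| ≤ C0 * ∑ i, |((D.sum fun P a => a • c P.1) i : ℝ)|) :
    ∃ C : ℝ, 0 ≤ C ∧ ∀ v, mixedDegree (φ v) y n 1 ≤
      ENNReal.ofReal (C * (∑ i, ∑ j, |(M v i j : ℝ)| + 1)) := by
  classical
  obtain ⟨CU, hCU, hU⟩ := hUp K N n y hy hn h0 i hi Hy hH
  obtain ⟨HF, hHF⟩ := hyfin hy hHe hH
  choose g s hg hgs using fun P0 : QQ y => dom hy hi hHe hH P0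
  choose C' hC' using h4
  obtain ⟨C1, hC1⟩ : ∃ C1 : ℝ, C1 = ∑ P ∈ HF.support, |(HF P : ℝ)| * |C' P| := ⟨_, rfl⟩
  have hC1' : 0 ≤ C1 := by
    rw [hC1]
    exact Finset.sum_nonneg fun _ _ => by positivity
  obtain ⟨C2, hC2⟩ : ∃ C2 : ℝ, C2 = (∑ P ∈ F, (s P : ℝ)) * (C0 * (ρ * C1)) := ⟨_, rfl⟩
  have hs0 : 0 ≤ ∑ P ∈ F, (s P : ℝ) := Finset.sum_nonneg fun _ _ => Nat.cast_nonneg _
  have hC2' : 0 ≤ C2 := by
    rw [hC2]
    positivity
  refine ⟨CU * (C2 + 1), by positivity, fun v => ?_⟩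
  obtain ⟨m, hm⟩ : ∃ m : ℝ, m = ∑ i, ∑ j, |(M v i j : ℝ)| := ⟨_, rfl⟩
  rw [← hm]
  have hm0 : 0 ≤ m := by
    rw [hm]
    exact Finset.sum_nonneg fun _ _ => Finset.sum_nonneg fun _ _ => abs_nonneg _
  obtain ⟨D, hD⟩ : ∃ D : QQ y →₀ ℤ, D = HF.mapDomain (pim h hps v) := ⟨_, rfl⟩
  have hx0 : ∀ j, |((ic c D j : ℤ) : ℝ)| ≤ C1 * m := by
    intro j
    rw [hD, ic_map, Finsupp.sum, Finset.sum_apply]
    push_cast
    refine (Finset.abs_sum_le_sum_abs _ _).trans ?_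
    rw [hC1, Finset.sum_mul]
    refine Finset.sum_le_sum fun P _ => ?_
    rw [Pi.smul_apply, smul_eq_mul]
    push_cast
    rw [abs_mul, mul_assoc]
    refine mul_le_mul_of_nonneg_left ?_ (abs_nonneg _)
    refine (hC' P v j).trans ?_
    rw [← hm]
    exact mul_le_mul_of_nonneg_right (le_abs_self _) hm0
  obtain ⟨x, hx, hxb⟩ := h5 D
  have hx1 : ic c D = ∑ P ∈ F, x P • c P.1 := hx
  have hxb1 : ∑ P ∈ F, |(x P : ℝ)| ≤ C0 * (ρ * (C1 * m)) := by
    refine hxb.trans (mul_le_mul_of_nonneg_left ?_ hC0.le)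
    refine (Finset.sum_le_sum fun j _ => hx0 j).trans (le_of_eq ?_)
    rw [Finset.sum_const, Finset.card_univ, Fintype.card_fin, nsmul_eq_mul]
  obtain ⟨B, hB⟩ : ∃ B : ℕ, B = ∑ P ∈ F, (x P).natAbs * s P := ⟨_, rfl⟩
  have hBr : (B : ℝ) ≤ C2 * m := by
    have e1 : (B : ℝ) = ∑ P ∈ F, |(x P : ℝ)| * s P := by
      rw [hB]
      push_cast
      refine Finset.sum_congr rfl fun P _ => ?_
      rw [Nat.cast_natAbs]
      push_cast
      rfl
    rw [e1]
    calc ∑ P ∈ F, |(x P : ℝ)| * s P ≤ ∑ P ∈ F, |(x P : ℝ)| * ∑ Q ∈ F, (s Q : ℝ) :=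
          Finset.sum_le_sum fun P hP => mul_le_mul_of_nonneg_left
            (Finset.single_le_sum (f := fun Q => (s Q : ℝ)) (fun _ _ => Nat.cast_nonneg _) hP)
            (abs_nonneg _)
      _ = (∑ P ∈ F, |(x P : ℝ)|) * ∑ Q ∈ F, (s Q : ℝ) := by rw [Finset.sum_mul]
      _ ≤ (C0 * (ρ * (C1 * m))) * ∑ Q ∈ F, (s Q : ℝ) := mul_le_mul_of_nonneg_right hxb1 hs0
      _ = C2 * m := by rw [hC2]; ring
  have hBq : (B : ℚ) = ∑ P ∈ F, |(x P : ℚ)| * s P := by
    rw [hB]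
    push_cast
    refine Finset.sum_congr rfl fun P _ => ?_
    rw [Nat.cast_natAbs]
    push_cast
    rfl
  -- the divisors
  have hHfin : Fin0 y Hy := hHe.2
  have hgfin : ∀ Q : QQ y, Fin0 y (fun P => ((P.ord (g Q) : ℤ) : ℚ)) := by
    intro Q
    refine (finite_ord hy (hg Q)).subset ?_
    rintro P ⟨hP, h1⟩
    refine ⟨hP, fun h2 => h1 ?_⟩
    show ((P.ord (g Q) : ℤ) : ℚ) = 0
    rw [h2, Int.cast_zero]
  obtain ⟨G, hG⟩ : ∃ G : QQ y → Place ℂ K → ℚ, G = fun Q P =>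
    |(x Q : ℚ)| * (((P.ord (g Q) : ℤ) : ℚ) + (s Q : ℚ) * Hy P) -
      (x Q : ℚ) * (if P = Q.1 then (1 : ℚ) else 0) := ⟨_, rfl⟩
  have hGfin1 : ∀ Q : QQ y, Fin0 y (fun P => ((P.ord (g Q) : ℤ) : ℚ) + (s Q : ℚ) * Hy P) :=
    fun Q => Fin0.add (hgfin Q) (Fin0.smul hHfin _)
  have hGfin2 : ∀ Q : QQ y, Fin0 y (fun P => |(x Q : ℚ)| * (((P.ord (g Q) : ℤ) : ℚ) +
      (s Q : ℚ) * Hy P)) := fun Q => Fin0.smul (hGfin1 Q) _
  have hGfin3 : ∀ Q : QQ y, Fin0 y (fun P => (x Q : ℚ) * (if P = Q.1 then (1 : ℚ) else 0)) :=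
    fun Q => Fin0.smul (fin_single _ _) _
  have hGfin : ∀ Q : QQ y, Fin0 y (G Q) := by
    intro Q
    rw [hG]
    exact Fin0.sub (hGfin2 Q) (hGfin3 Q)
  have hGcls : ∀ Q : QQ y, cls y (cQ c) (G Q) =
      (|(x Q : ℚ)| * s Q) • cls y (cQ c) Hy - (x Q : ℚ) • cQ c Q.1 := by
    intro Q
    rw [hG]
    simp only
    rw [cls_sub (hGfin2 Q) (hGfin3 Q), cls_smul, cls_smul,
      cls_add (hgfin Q) (Fin0.smul hHfin _), princ hc (hg Q), cls_smul, cls_single Q.2,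
      zero_add, one_smul, smul_smul]
  have hGnn : ∀ Q : QQ y, ∀ P, IsPrimeDivisor y P → 0 ≤ G Q P := by
    intro Q P hP
    rw [hG]
    simp only
    have e1 := hgs Q P hP
    have e2 : (0 : ℚ) ≤ if P = Q.1 then (1 : ℚ) else 0 := by split_ifs <;> norm_num
    have e3 := mul_le_mul_of_nonneg_left e1 (abs_nonneg (x Q : ℚ))
    have e4 := mul_le_mul_of_nonneg_right (le_abs_self (x Q : ℚ)) e2
    linarith
  obtain ⟨E, hE⟩ : ∃ E : Place ℂ K → ℚ, E = fun P => ∑ Q ∈ F, G Q P := ⟨_, rfl⟩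
  have hEfin : Fin0 y E := by
    rw [hE]
    exact Fin0.sum F fun Q _ => hGfin Q
  obtain ⟨T, hT⟩ : ∃ T : Place ℂ K → ℚ, T = fun P => ((B : ℚ) * Hy P - dv D P) - E P :=
    ⟨_, rfl⟩
  have hTfin : Fin0 y T := by
    rw [hT]
    exact Fin0.sub (Fin0.sub (Fin0.smul hHfin _) (dv_fin D)) hEfin
  have hTcls : cls y (cQ c) T = 0 := by
    rw [hT, cls_sub (Fin0.sub (Fin0.smul hHfin _) (dv_fin D)) hEfin,
      cls_sub (Fin0.smul hHfin _) (dv_fin D), cls_smul, hE, cls_sum F fun Q _ => hGfin Q]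
    rw [Finset.sum_congr rfl fun Q _ => hGcls Q, Finset.sum_sub_distrib, ← Finset.sum_smul, ← hBq]
    have e1 : cls y (cQ c) (dv D) = ∑ Q ∈ F, (x Q : ℚ) • cQ c Q.1 := by
      funext j
      rw [cls_dv, hx1, Finset.sum_apply, Finset.sum_apply]
      push_cast
      refine Finset.sum_congr rfl fun Q _ => ?_
      rw [Pi.smul_apply, Pi.smul_apply, smul_eq_mul, smul_eq_mul]
      push_cast
      rfl
    rw [e1]
    abel
  obtain ⟨k, hk, f, hf, hfo⟩ := hc.trivial T hTfin hTcls i hi 1 le_rfl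
  have hbound := hU (φ v) (hps v) (B + 1) k f⁻¹ hk (inv_ne_zero hf) (by
    intro P hP
    obtain ⟨l, hl⟩ := exists_centred hy P
    have e0 := hfo P l hP hl
    rw [← hH P l hP hl, hT] at e0
    have e3 : dv D P = Hy (comap (φ v) P) := by
      rw [hHF (comap (φ v) P) ((hps v _ _ fun _ => rfl).2 hP), ← dv_map h hps v HF hP, ← hD]
    simp only [e3] at e0
    have e1 : 0 ≤ E P := by
      rw [hE]
      exact Finset.sum_nonneg fun Q _ => hGnn Q P hP
    have e2 : (0 : ℚ) ≤ (k : ℚ) * E P := mul_nonneg (Nat.cast_nonneg _) e1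
    have e4 : P.ord f⁻¹ = - P.ord f := by
      have e5 := P.ord_mul hf (inv_ne_zero hf)
      rw [mul_inv_cancel₀ hf, P.ord_one] at e5
      omega
    rw [e4]
    push_cast at e0 ⊢
    linarith)
  refine hbound.trans (ENNReal.ofReal_le_ofReal ?_)
  rw [mul_assoc]
  refine mul_le_mul_of_nonneg_left ?_ hCU.le
  push_cast
  nlinarith

end

theorem matN (hUp : S_Up) (hLow : S_Low) (hAlg : S_Alg) : S_MatN := by
  intro K _ _ N n y hy hn h0 hfg r φ h hps
  obtain ⟨ρ, c, hc⟩ := hfg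
  obtain ⟨i, hi⟩ := hy.ne
  obtain ⟨Hy, hHe, hH⟩ := exists_hyp hy hi
  obtain ⟨ρ', M, F, C0, hC0, hM0, hM, h3, h4, h5⟩ := hAlg (QQ y) ρ r (fun P => c P.1)
    (pim h hps) (pim_add h hps) (fun v D hD => kernN hy h hps hc v D hD)
  obtain ⟨CU, hCU, hUb⟩ := upperN hUp hy hn h0 hi hHe hH hc h hps hC0 h4 h5
  choose CL hCL hLb using fun P0 : QQ y => lowerN hLow hy hn h0 hi hHe hH hc h hps P0
  have hS : 0 ≤ ∑ P ∈ F, CL P := Finset.sum_nonneg fun P _ => hCL P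
  refine ⟨ρ', M, CU + C0 * (∑ P ∈ F, CL P) + 1, by positivity, hM0, hM, fun v => ?_, fun v D hD => ?_⟩
  · refine (hUb v).trans (ENNReal.ofReal_le_ofReal ?_)
    refine mul_le_mul_of_nonneg_right ?_ (add_nonneg
      (Finset.sum_nonneg fun _ _ => Finset.sum_nonneg fun _ _ => abs_nonneg _) zero_le_one)
    have : 0 ≤ C0 * (∑ P ∈ F, CL P) := by positivity
    linarith
  · refine (h3 v).trans ?_
    have e1 : ∑ P ∈ F, ∑ i, |(c (pim h hps v P).1 i : ℝ)| ≤ (∑ P ∈ F, CL P) * D := by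
      rw [Finset.sum_mul]
      exact Finset.sum_le_sum fun P _ => hLb P v D hD
    refine (mul_le_mul_of_nonneg_left e1 hC0.le).trans ?_
    rw [← mul_assoc]
    refine mul_le_mul_of_nonneg_right ?_ (Nat.cast_nonneg _)
    linarith

end

end Pool.Agent.N110.PA
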