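import Pool.Agent.N110.PA.MatN
import Pool.Agent.N110.RK.Main
import Pool.Agent.N572.PA.Gap
import Pool.Agent.N572.PA.Dir
import Pool.Agent.N572.PA.Alg
import Pool.Agent.N273.PA.Up
import Pool.Agent.N769.PA.Low

/-!
Abelian groups of isomorphisms in codimension one all of whose elements have positive entropy: the
degrees grow exponentially in all directions. The parts are by helper572 (`Gap`, `Dir`, `Alg`),
helper273 (`Up`), helper769 (`Low`) and helper492 (`Mat`).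
-/

set_option autoImplicit false
set_option linter.overlappingInstances false
set_option linter.unusedSectionVars false

open FF Module MvPolynomial Pool.Agent.W602.GT Pool.Agent.W603.LV
open Pool.Agent.Y172 Pool.Agent.Y191 Pool.Agent.R887
open scoped ENNReal

namespace Pool.Agent.N110.PA

section

variable {K : Type} [Field K] [Algebra ℂ K] {N n : ℕ} {y : Fin (N + 1) → K}

/-- isomorphisms in codimension one preserve `K_X + Δ` if they preserve `Δ` -/
theorem pullLe_pseudoAut {φ : K ≃ₐ[ℂ] K} (hφ : PseudoAut φ y) {Δ : Place ℂ K → ℚ}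
    (hΔ : ∀ P Q : Place ℂ K, IsPrimeDivisor y Q → (∀ g, P.ord g = Q.ord (φ g)) → Δ P ≤ Δ Q) :
    PullLe φ y n Δ := by
  intro Q hQ P hP
  refine ⟨1 - Δ P, Or.inl ⟨(hφ P Q hP).2 hQ, le_rfl⟩, ?_⟩
  have := hΔ P Q hQ hP
  linarith

theorem pow_eq {r : ℕ} {φ : (Fin r → ℤ) → (K ≃ₐ[ℂ] K)} (hφ : ∀ u v, φ (u + v) = φ u * φ v)
    (v : Fin r → ℤ) (l : ℕ) : φ v ^ l = φ (l • v) := by
  have h0 : φ 0 = 1 := by
    have h1 := hφ 0 0
    rw [add_zero] at h1
    exact (mul_eq_left.1 h1.symm)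
  induction l with
  | zero => rw [pow_zero, zero_smul, h0]
  | succ l ih => rw [pow_succ, ih, ← hφ, succ_nsmul]

theorem mat_pow {r ρ : ℕ} {M : (Fin r → ℤ) → Matrix (Fin ρ) (Fin ρ) ℤ} (h0 : M 0 = 1)
    (hM : ∀ u v, M (u + v) = M u * M v) (v : Fin r → ℤ) (l : ℕ) : M v ^ l = M (l • v) := by
  induction l with
  | zero => rw [pow_zero, zero_smul, h0]
  | succ l ih => rw [pow_succ, ih, ← hM, succ_nsmul]

/-- **Positive entropy of all elements implies uniform growth.** -/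
theorem expGrowth (hMat : S_MatN) (hDir : S_Dir) (hy : NormalModel y)
    (hn : Algebra.trdeg ℂ K = n) (hn0 : 0 < n) (hq : NeronSeveri y) {r : ℕ} (hr : 0 < r)
    {φ : (Fin r → ℤ) → (K ≃ₐ[ℂ] K)} (hφ : ∀ u v, φ (u + v) = φ u * φ v)
    (hPA : ∀ v, PseudoAut (φ v) y) (hpos : ∀ v, v ≠ 0 → 1 < dynDegree (φ v) y n 1) :
    ExpGrowth φ y n := by
  obtain ⟨ρ', M, C, hC, hM0, hM, hup, hlow⟩ := hMat K N n y hy hn hn0 hq r φ hφ hPA
  obtain ⟨c, δ, hc, hδ, hg⟩ := hDir ρ' r hr M hM0 hM (by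
    intro v hv
    have h1 := hpos v hv
    obtain ⟨s, hs1, hs2⟩ := ENNReal.lt_iff_exists_nnreal_btwn.1 h1
    have hs1' : (1 : ℝ) < s := by exact_mod_cast hs1
    have hlog : 0 < Real.log s := Real.log_pos hs1'
    refine ⟨Real.log s / 2, by positivity, fun B => ?_⟩
    by_contra hcon
    push Not at hcon
    have hfr : ∃ᶠ l : ℕ in Filter.atTop, (s : ℝ≥0∞) < mixedDegree (φ v ^ l) y n 1 ^ (1 / (l : ℝ)) :=
      Filter.frequently_lt_of_lt_limsup (by isBoundedDefault) hs2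
    have htend : Filter.Tendsto (fun l : ℕ => Real.exp (Real.log s / 2 * l)) Filter.atTop
        Filter.atTop := Real.tendsto_exp_atTop.comp
      ((tendsto_natCast_atTop_atTop (R := ℝ)).const_mul_atTop (by positivity))
    obtain ⟨l, hl, hl1, hl2⟩ := (hfr.and_eventually ((htend.eventually_gt_atTop
      (C * (∑ _i : Fin ρ', ∑ _j : Fin ρ', B) + C)).and (Filter.eventually_gt_atTop 0))).exists
    have hl0 : (0 : ℝ) < l := by exact_mod_cast hl2
    have h2 : ((s : ℝ≥0∞)) ^ (l : ℝ) < mixedDegree (φ v ^ l) y n 1 := by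
      have h3 := ENNReal.rpow_lt_rpow hl hl0
      rwa [← ENNReal.rpow_mul, one_div, inv_mul_cancel₀ hl0.ne', ENNReal.rpow_one] at h3
    have h4 := h2.trans_le ((by rw [pow_eq hφ] :
      mixedDegree (φ v ^ l) y n 1 = mixedDegree (φ (l • v)) y n 1).trans_le (hup (l • v)))
    have h5 : (s : ℝ≥0∞) ^ (l : ℝ) = ENNReal.ofReal (Real.exp (Real.log s * l)) := by
      rw [ENNReal.rpow_natCast, Real.exp_mul, Real.exp_log (by linarith),
        Real.rpow_natCast, ENNReal.ofReal_pow s.coe_nonneg, ENNReal.ofReal_coe_nnreal]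
    rw [h5] at h4
    have h6 := (ENNReal.ofReal_lt_ofReal_iff_of_nonneg (Real.exp_pos _).le).1 h4
    have h7 : ∑ i, ∑ j, |((M (l • v)) i j : ℝ)| ≤
        ∑ _i : Fin ρ', ∑ _j : Fin ρ', B * Real.exp (Real.log s / 2 * l) := by
      refine Finset.sum_le_sum fun i _ => Finset.sum_le_sum fun j _ => ?_
      rw [← mat_pow hM0 hM]
      exact hcon l i j
    have h8 : ∑ _i : Fin ρ', ∑ _j : Fin ρ', B * Real.exp (Real.log s / 2 * l) =
        (∑ _i : Fin ρ', ∑ _j : Fin ρ', B) * Real.exp (Real.log s / 2 * l) := by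
      rw [Finset.sum_mul]
      exact Finset.sum_congr rfl fun i _ => by rw [Finset.sum_mul]
    rw [h8] at h7
    have h9 : Real.exp (Real.log s * l) =
        Real.exp (Real.log s / 2 * l) * Real.exp (Real.log s / 2 * l) := by
      rw [← Real.exp_add]
      congr 1
      ring
    rw [h9] at h6
    have h10 : (1 : ℝ) ≤ Real.exp (Real.log s / 2 * l) := Real.one_le_exp (by positivity)
    have h11 := mul_le_mul_of_nonneg_left h7 hC.le
    have h12 : C * (∑ i, ∑ j, |((M (l • v)) i j : ℝ)| + 1) ≤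
        (C * (∑ _i : Fin ρ', ∑ _j : Fin ρ', B) + C) * Real.exp (Real.log s / 2 * l) := by
      nlinarith
    have h13 := mul_lt_mul_of_pos_right hl1 (zero_lt_one.trans_le h10)
    linarith)
  obtain ⟨i, hi⟩ := hy.ne
  refine ⟨c / C, δ, by positivity, hδ, fun v => ?_⟩
  have h1 := mixedDegree_eq hy hn hi (φ v) (by omega : 1 ≤ n)
  obtain ⟨D, hD⟩ : ∃ D : ℕ, mixedDegree (φ v) y n 1 = D := ⟨_, h1⟩
  have h2 := hlow v D hD.le
  have h3 := (hg v).trans h2
  rw [hD, ← ENNReal.ofReal_natCast]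
  refine ENNReal.ofReal_le_ofReal ?_
  rw [div_mul_eq_mul_div, div_le_iff₀ hC]
  linarith

theorem growthN (hy : NormalModel y) (hn : Algebra.trdeg ℂ K = n) (hn0 : 0 < n)
    (hq : NeronSeveri y) {r : ℕ} (hr : 0 < r) {φ : (Fin r → ℤ) → (K ≃ₐ[ℂ] K)}
    (hφ : ∀ u v, φ (u + v) = φ u * φ v) (hPA : ∀ v, PseudoAut (φ v) y)
    (hpos : ∀ v, v ≠ 0 → 1 < dynDegree (φ v) y n 1) : ExpGrowth φ y n :=
  expGrowth (matN Pool.Agent.N273.PA.up Pool.Agent.N769.PA.low
    fun 𝒬 ρ r c π h1 h2 => Pool.Agent.N572.PA.alg 𝒬 ρ r c π h1 h2)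
    (fun ρ r hr A h0 h1 h2 => Pool.Agent.N572.PA.dir Pool.Agent.N572.PA.gap ρ r hr A h0 h1 h2)
    hy hn hn0 hq hr hφ hPA hpos

end

end Pool.Agent.N110.PA
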