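import Pool.Agent.N110.Defs
import Pool.Agent.N110.NV.Defs

/-!
Definitions: varieties with a finitely generated class group, and birational self-maps which are
isomorphisms in codimension one.
-/

set_option autoImplicit false

open FF Pool.Agent.W602.GT Pool.Agent.Y172 Pool.Agent.R887

namespace Pool.Agent.N110

section

variable {K : Type} [Field K] [Algebra ℂ K] {N : ℕ}

/-- The divisor class group `Cl X` is finitely generated, up to torsion, and the pseudo-effective
cone in `Cl X ⊗ ℝ` contains no line: there are vectors `c P` with integral coordinates which describe
the classes of the prime divisors `P` of `X`. For smooth `X` this means that the irregularity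
`q(X) = h¹(X, O_X)` is zero (then `Cl X` is the Néron-Severi group; otherwise `Cl X` contains a
complex torus). -/
def FinGenClasses (y : Fin (N + 1) → K) : Prop :=
  ∃ (ρ : ℕ) (c : Place ℂ K → Fin ρ → ℤ), FiniteClasses y (fun P i => (c P i : ℚ))

/-- The birational self-map `f` of `X` given by the automorphism `φ` of the function field is an
isomorphism in codimension one: if `P` is the image of `Q` (divisors over `X`), then `P` is a prime
divisor of `X` if and only if `Q` is one. So neither `f` nor its inverse contracts a divisor. -/
def PseudoAut (φ : K ≃ₐ[ℂ] K) (y : Fin (N + 1) → K) : Prop :=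
  ∀ P Q : Place ℂ K, (∀ g, P.ord g = Q.ord (φ g)) → (IsPrimeDivisor y P ↔ IsPrimeDivisor y Q)

end

end Pool.Agent.N110
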