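import Pool.Agent.N110.PA.Defs
import Pool.Agent.N110.Pull

/-!
Statements of the parts of project PA (helper110).
-/

set_option autoImplicit false

open FF Pool.Agent.W602.GT Pool.Agent.Y172 Pool.Agent.R887

namespace Pool.Agent.N110.PA

/-- (GAP) integral matrices with very small growth have no growth -/
def S_Gap : Prop :=
  ∀ ρ : ℕ, ∃ ε : ℝ, 0 < ε ∧ ∀ A : Matrix (Fin ρ) (Fin ρ) ℤ,
    (∃ B : ℝ, ∀ (m : ℕ) (i j : Fin ρ), |((A ^ m) i j : ℝ)| ≤ B * Real.exp (ε * m)) →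
    ∀ δ : ℝ, 0 < δ → ∃ B : ℝ, ∀ (m : ℕ) (i j : Fin ρ), |((A ^ m) i j : ℝ)| ≤ B * Real.exp (δ * m)

/-- (DIR) commuting integral matrices: growth of every element implies uniform growth -/
def S_Dir : Prop :=
  ∀ (ρ r : ℕ), 0 < r → ∀ A : (Fin r → ℤ) → Matrix (Fin ρ) (Fin ρ) ℤ,
    A 0 = 1 → (∀ u v, A (u + v) = A u * A v) →
    (∀ v, v ≠ 0 → ∃ δ : ℝ, 0 < δ ∧ ∀ B : ℝ, ∃ (m : ℕ) (i j : Fin ρ),
      B * Real.exp (δ * m) < |((A v ^ m) i j : ℝ)|) →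
    ∃ c δ : ℝ, 0 < c ∧ 0 < δ ∧ ∀ v, c * Real.exp (δ * ∑ i, |(v i : ℝ)|) ≤
      ∑ i, ∑ j, |(A v i j : ℝ)|

/-- (ALG) a group of permutations of the generators of a finitely generated group which preserves
the relations -/
def S_Alg : Prop :=
  ∀ (𝒬 : Type) (ρ r : ℕ) (c : 𝒬 → Fin ρ → ℤ) (π : (Fin r → ℤ) → Equiv.Perm 𝒬),
    (∀ u v, π (u + v) = π u * π v) →
    (∀ (v : Fin r → ℤ) (D : 𝒬 →₀ ℤ), (D.sum fun P a => a • c P) = 0 →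
      (D.sum fun P a => a • c (π v P)) = 0) →
    ∃ (ρ' : ℕ) (M : (Fin r → ℤ) → Matrix (Fin ρ') (Fin ρ') ℤ) (F : Finset 𝒬) (C : ℝ), 0 < C ∧
      M 0 = 1 ∧ (∀ u v, M (u + v) = M u * M v) ∧
      (∀ v, ∑ i, ∑ j, |(M v i j : ℝ)| ≤ C * ∑ P ∈ F, ∑ i, |(c (π v P) i : ℝ)|) ∧
      (∀ P, ∃ C' : ℝ, ∀ v i, |(c (π v P) i : ℝ)| ≤ C' * ∑ i, ∑ j, |(M v i j : ℝ)|) ∧
      ∀ D : 𝒬 →₀ ℤ, ∃ x : 𝒬 → ℤ, (D.sum fun P a => a • c P) = ∑ P ∈ F, x P • c P ∧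
        ∑ P ∈ F, |(x P : ℝ)| ≤ C * ∑ i, |((D.sum fun P a => a • c P) i : ℝ)|

/-- (UP) if `B H - f^* H` is linearly equivalent to an effective divisor, the degree of `f` is at
most `C B` -/
def S_Up : Prop :=
  ∀ (K : Type) [Field K] [Algebra ℂ K] (N n : ℕ) (y : Fin (N + 1) → K), NormalModel y →
    Algebra.trdeg ℂ K = n → 0 < n → ∀ i, y i ≠ 0 → ∀ Hy : Place ℂ K → ℚ,
    (∀ P l, IsPrimeDivisor y P → Centred y l P → Hy P = P.ord (y i / y l)) →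
    ∃ C : ℝ, 0 < C ∧ ∀ φ : K ≃ₐ[ℂ] K, PseudoAut φ y → ∀ (B m : ℕ) (f : K), 1 ≤ m → f ≠ 0 →
      (∀ P, IsPrimeDivisor y P → (P.ord f : ℚ) + m * Hy (comap φ P) ≤ m * B * Hy P) →
      mixedDegree φ y n 1 ≤ ENNReal.ofReal (C * B)

/-- (LOW) if the degree of `f` is at most `D` then `D H - f^* H` is linearly equivalent to an
effective divisor -/
def S_Low : Prop :=
  ∀ (K : Type) [Field K] [Algebra ℂ K] (N n : ℕ) (y : Fin (N + 1) → K), NormalModel y →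
    Algebra.trdeg ℂ K = n → 0 < n → ∀ i, y i ≠ 0 → ∀ Hy : Place ℂ K → ℚ,
    (∀ P l, IsPrimeDivisor y P → Centred y l P → Hy P = P.ord (y i / y l)) →
    ∀ φ : K ≃ₐ[ℂ] K, PseudoAut φ y → ∀ D : ℕ, mixedDegree φ y n 1 ≤ D →
      ∃ h : K, h ≠ 0 ∧ ∀ P, IsPrimeDivisor y P → Hy (comap φ P) ≤ P.ord h + D * Hy P

/-- (MAT) the degrees of the elements of an abelian group of isomorphisms in codimension one are
comparable to the entries of integral matrices -/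
def S_Mat : Prop :=
  ∀ (K : Type) [Field K] [Algebra ℂ K] (N n : ℕ) (y : Fin (N + 1) → K), NormalModel y →
    Algebra.trdeg ℂ K = n → 0 < n → FinGenClasses y → ∀ (r : ℕ) (φ : (Fin r → ℤ) → (K ≃ₐ[ℂ] K)),
    (∀ u v, φ (u + v) = φ u * φ v) → (∀ v, PseudoAut (φ v) y) →
    ∃ (ρ' : ℕ) (M : (Fin r → ℤ) → Matrix (Fin ρ') (Fin ρ') ℤ) (C : ℝ), 0 < C ∧ M 0 = 1 ∧
      (∀ u v, M (u + v) = M u * M v) ∧
      (∀ v, mixedDegree (φ v) y n 1 ≤ ENNReal.ofReal (C * ∑ i, ∑ j, |(M v i j : ℝ)|)) ∧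
      ∀ v (D : ℕ), mixedDegree (φ v) y n 1 ≤ D → ∑ i, ∑ j, |(M v i j : ℝ)| ≤ C * D

end Pool.Agent.N110.PA
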